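import Mathlib

namespace Pool.Agent.H.MP_9c5c66_al

open Finset

section
variable {I : Type} [Fintype I] [DecidableEq I] {k : ℕ}

def Par (k : ℕ) (A B C : Finset I) : Prop :=
  A.card = k ∧ B.card = k ∧ C.card = k ∧ Disjoint A B ∧ Disjoint (A ∪ B) C

lemma third (hI : Fintype.card I = 3 * k) {A B : Finset I} (hA : A.card = k) (hB : B.card = k)
    (h : Disjoint A B) : Par k A B (A ∪ B)ᶜ :=
  ⟨hA, hB, by rw [card_compl, card_union_of_disjoint h]; omega, h, disjoint_compl_right⟩

lemma star (hI : Fintype.card I = 3 * k) (hk : 0 < k) (g : Finset I → ℕ)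
    (hg : ∀ A B C, Par k A B C → g A + g B + g C = 1) :
    ∃ a, ∀ A : Finset I, A.card = k → g A = if a ∈ A then 1 else 0 := by
  have sub : ∀ (S : Finset I) n, S.card + n ≤ 3 * k → ∃ Z : Finset I, Z.card = n ∧ Disjoint Z S :=
    fun S n h => by
      obtain ⟨Z, h1, h2⟩ := exists_subset_card_eq (s := Sᶜ) (n := n) (by rw [card_compl]; omega)
      exact ⟨Z, h2, subset_compl_iff_disjoint_right.1 h1⟩
  have d1 : ∀ a b X Y, a ≠ b → X.card + 1 = k → Y.card + 1 = k → a ∉ X → b ∉ X → a ∉ Y → b ∉ Y →
      Disjoint X Y → g (insert a X) + g (insert b Y) = g (insert b X) + g (insert a Y) := by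
    intro a b X Y hab hX hY h1 h2 h3 h4 h
    have e1 := hg _ _ _ (third hI (A := insert a X) (B := insert b Y)
      (by rw [card_insert_of_notMem h1, hX]) (by rw [card_insert_of_notMem h4, hY]) (by
        simp [hab.symm, h, h2, h3]))
    have e2 := hg _ _ _ (third hI (A := insert b X) (B := insert a Y)
      (by rw [card_insert_of_notMem h2, hX]) (by rw [card_insert_of_notMem h3, hY]) (by
        simp [hab, h, h1, h4]))
    have : insert b X ∪ insert a Y = insert a X ∪ insert b Y := by ext; simp; tauto
    rw [this] at e2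
    omega
  have d2 : ∀ a b X Y, a ≠ b → X.card + 1 = k → Y.card + 1 = k → a ∉ X → b ∉ X → a ∉ Y → b ∉ Y →
      g (insert a X) + g (insert b Y) = g (insert b X) + g (insert a Y) := by
    intro a b X Y hab hX hY h1 h2 h3 h4
    obtain ⟨Z, hZ, h⟩ := sub (insert a (insert b (X ∪ Y))) X.card (by
      have := card_insert_le a (insert b (X ∪ Y))
      have := card_insert_le b (X ∪ Y)
      have := card_union_le X Y
      omega)
    simp only [disjoint_insert_right, disjoint_union_right] at h
    have := d1 a b X Z hab hX (by omega) h1 h2 h.1 h.2.1 h.2.2.1.symm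
    have := d1 a b Y Z hab hY (by omega) h3 h4 h.1 h.2.1 h.2.2.2.symm
    omega
  have le1 : ∀ A : Finset I, A.card = k → g A ≤ 1 := fun A hA => by
    obtain ⟨B, hB, h⟩ := sub A k (by omega)
    have := hg _ _ _ (third hI hA hB h.symm)
    omega
  obtain ⟨a, b, X, hab, hX, h1, h2, h3⟩ : ∃ a b X, a ≠ b ∧ X.card + 1 = k ∧ a ∉ X ∧ b ∉ X ∧
      g (insert b X) < g (insert a X) := by
    by_contra! H
    have c : ∀ n, ∀ A B : Finset I, A.card = k → B.card = k → (A \ B).card = n → g A = g B := by
      intro n
      induction n with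
      | zero =>
        intro A B hA hB h
        rw [eq_of_subset_of_card_le (sdiff_eq_empty_iff_subset.1 (card_eq_zero.1 h)) (by omega)]
      | succ n ih =>
        intro A B hA hB h
        obtain ⟨a, ha⟩ := card_pos.1 (show 0 < (A \ B).card by omega)
        obtain ⟨b, hb⟩ := card_pos.1 (show 0 < (B \ A).card by rw [card_sdiff_comm (hB.trans hA.symm)]; omega)
        rw [mem_sdiff] at ha hb
        have hab : a ≠ b := fun e => ha.2 (e ▸ hb.1)
        have hc : (A.erase a).card + 1 = k := by rw [card_erase_add_one ha.1, hA]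
        have n1 : b ∉ A.erase a := fun h => hb.2 (mem_of_mem_erase h)
        have e1 := H a b _ hab hc (notMem_erase a A) n1
        have e2 := H b a _ hab.symm hc n1 (notMem_erase a A)
        rw [insert_erase ha.1] at e1 e2
        rw [le_antisymm e1 e2]
        refine ih _ _ (by rw [card_insert_of_notMem n1, hc]) hB ?_
        rw [insert_sdiff_of_mem _ hb.1, erase_sdiff_comm, card_erase_of_mem (mem_sdiff.2 ha), h]
        rfl
    obtain ⟨A, hA, -⟩ := sub ∅ k (by simp; omega)
    obtain ⟨B, hB, h⟩ := sub A k (by omega)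
    have p := third hI hA hB h.symm
    have := hg _ _ _ p
    rw [c _ B A hB hA rfl, c _ _ A p.2.2.1 hA rfl] at this
    omega
  have s1 : ∀ A : Finset I, A.card = k → a ∈ A → b ∉ A → g A = 1 := fun A hA ha hb => by
    have := d2 a b X (A.erase a) hab hX (by rw [card_erase_add_one ha, hA]) h1 h2 (notMem_erase a A)
      fun h => hb (mem_of_mem_erase h)
    rw [insert_erase ha] at this
    have := le1 A hA
    omega
  have s2 : ∀ A : Finset I, A.card = k → a ∉ A → g A = 0 := fun A hA ha => by
    obtain ⟨Z, hZ, h⟩ := sub (insert a (insert b A)) X.card (by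
      have := card_insert_le a (insert b A)
      have := card_insert_le b A
      omega)
    simp only [disjoint_insert_right] at h
    have hc : (insert a Z).card = k := by rw [card_insert_of_notMem h.1]; omega
    have := hg _ _ _ (third hI hA hc (by simp [ha, h.2.2.symm]))
    have := s1 _ hc (mem_insert_self _ _) (by simp [hab.symm, h.2.1])
    omega
  refine ⟨a, fun A hA => ?_⟩
  split_ifs with ha
  · obtain ⟨B, hB, h⟩ := sub A k (by omega)
    have p := third hI hA hB h.symm
    have := hg _ _ _ p
    rw [s2 B hB fun h' => disjoint_left.1 h h' ha, s2 _ p.2.2.1 (by simp [ha])] at this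
    omega
  · exact s2 A hA ha

lemma kneser (hI : Fintype.card I = 3 * k) (hk : 0 < k) {q : ℕ} (f : Finset I → Finset (Fin (3 * q)))
    (hf : ∀ A B C, Par k A B C → Par q (f A) (f B) (f C)) : k ∣ q := by
  have h1 : ∀ j, ∃ a, ∀ A : Finset I, A.card = k → (j ∈ f A ↔ a ∈ A) := fun j => by
    obtain ⟨a, ha⟩ := star hI hk (fun A => if j ∈ f A then 1 else 0) fun A B C h => by
      obtain ⟨a, b, c, d, e⟩ := hf A B C h
      have : f A ∪ f B ∪ f C = univ := eq_univ_of_card _ (by
        rw [card_union_of_disjoint e, card_union_of_disjoint d, Fintype.card_fin]; omega)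
      have h2 : j ∈ f A ∪ f B ∪ f C := this ▸ mem_univ j
      have h3 : j ∈ f A → j ∉ f B := fun h => disjoint_left.1 d h
      have h4 : j ∈ f A ∪ f B → j ∉ f C := fun h => disjoint_left.1 e h
      simp only [mem_union] at h2 h4
      split_ifs <;> tauto
    refine ⟨a, fun A hA => ?_⟩
    have := ha A hA
    split_ifs at this <;> simp_all
  choose φ hφ using h1
  have sub : ∀ (S : Finset I) n, S.card + n ≤ 3 * k → ∃ Z : Finset I, Z.card = n ∧ Disjoint Z S :=
    fun S n h => by
      obtain ⟨Z, h1, h2⟩ := exists_subset_card_eq (s := Sᶜ) (n := n) (by rw [card_compl]; omega)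
      exact ⟨Z, h2, subset_compl_iff_disjoint_right.1 h1⟩
  have h2 : ∀ A : Finset I, A.card = k → ∑ a ∈ A, (univ.filter (φ · = a)).card = q := fun A hA => by
    obtain ⟨B, hB, h⟩ := sub A k (by omega)
    refine Eq.trans ?_ (hf _ _ _ (third hI hA hB h.symm)).1
    rw [card_eq_sum_card_fiberwise (f := φ) (t := A) fun j hj => (hφ j A hA).1 hj]
    refine sum_congr rfl fun a ha => congrArg card ?_
    ext j
    simp only [mem_filter, mem_univ, true_and, hφ j A hA]
    exact ⟨fun h => ⟨h ▸ ha, h⟩, And.right⟩
  have h3 : ∀ a b, (univ.filter (φ · = a)).card = (univ.filter (φ · = b)).card := fun a b => by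
    obtain ⟨Z, hZ, h⟩ := sub {a, b} (k - 1) (by have := card_le_two (a := a) (b := b); omega)
    simp only [disjoint_insert_right, disjoint_singleton_right] at h
    have e1 := h2 (insert a Z) (by rw [card_insert_of_notMem h.1]; omega)
    have e2 := h2 (insert b Z) (by rw [card_insert_of_notMem h.2]; omega)
    rw [sum_insert h.1] at e1
    rw [sum_insert h.2] at e2
    omega
  obtain ⟨A, hA, -⟩ := sub ∅ k (by simp; omega)
  obtain ⟨a, -⟩ := card_pos.1 (show 0 < A.card by omega)
  have := h2 A hA
  rw [sum_congr rfl fun b _ => h3 b a, sum_const, hA] at this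
  exact Dvd.intro _ this
end

/-- terms in the signature with two binary operations -/
inductive Tm
  | var (n : ℕ)
  | add (a b : Tm)
  | mul (a b : Tm)

structure Alg where
  C : Type
  add : C → C → C
  mul : C → C → C

def Alg.ev (A : Alg) (σ : ℕ → A.C) : Tm → A.C
  | .var n => σ n
  | .add a b => A.add (A.ev σ a) (A.ev σ b)
  | .mul a b => A.mul (A.ev σ a) (A.ev σ b)

def Sat (A : Alg) (e : Tm × Tm) : Prop := ∀ σ, A.ev σ e.1 = A.ev σ e.2

def Mdl (S : Set (Tm × Tm)) : Set Alg := {A | ∀ e ∈ S, Sat A e}

def V (A : Alg) : Set Alg := Mdl {e | Sat A e}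

/-- `0, 1, 2` stand for `1, a, t` -/
abbrev S7 : Alg := ⟨Fin 3, fun x y => if x = y then x else 2,
  fun x y => if x = 0 then y else if y = 0 then x else 2⟩

/-- adjoining a new element `none` that is an additive identity and a multiplicative zero -/
abbrev Alg.adj (A : Alg) : Alg := ⟨Option A.C,
  fun x y => x.elim y fun a => y.elim x fun b => some (A.add a b),
  fun x y => x.elim none fun a => y.elim none fun b => some (A.mul a b)⟩

def Tm.code : Tm → ℕ
  | .var n => 3 * n
  | .add a b => 3 * Nat.pair a.code b.code + 1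
  | .mul a b => 3 * Nat.pair a.code b.code + 2

instance : Countable Tm := ⟨Tm.code, fun a => by
  induction a with
  | var n => rintro (m | _ | _) h <;> simp only [Tm.code] at h <;> first | omega | (congr 1; omega)
  | add a b iha ihb =>
    rintro (m | ⟨c, d⟩ | _) h <;> simp only [Tm.code] at h <;> try omega
    obtain ⟨h1, h2⟩ := Nat.pair_eq_pair.1 (show Nat.pair a.code b.code = Nat.pair c.code d.code by omega)
    rw [iha h1, ihb h2]
  | mul a b iha ihb =>
    rintro (m | _ | ⟨c, d⟩) h <;> simp only [Tm.code] at h <;> try omega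
    obtain ⟨h1, h2⟩ := Nat.pair_eq_pair.1 (show Nat.pair a.code b.code = Nat.pair c.code d.code by omega)
    rw [iha h1, ihb h2]⟩

lemma hom {A B : Alg} (f : A.C → B.C) (h1 : ∀ x y, f (A.add x y) = B.add (f x) (f y))
    (h2 : ∀ x y, f (A.mul x y) = B.mul (f x) (f y)) (σ : ℕ → A.C) (t : Tm) :
    f (A.ev σ t) = B.ev (f ∘ σ) t := by
  induction t with
  | var n => rfl
  | add a b iha ihb => rw [Alg.ev, h1, iha, ihb, Alg.ev]
  | mul a b iha ihb => rw [Alg.ev, h2, iha, ihb, Alg.ev]

lemma sub_adj (A : Alg) : A ∈ V A.adj := fun e he σ => Option.some_injective _ <| by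
  rw [hom (B := A.adj) some (fun _ _ => rfl) (fun _ _ => rfl),
    hom (B := A.adj) some (fun _ _ => rfl) (fun _ _ => rfl)]
  exact he _

end Pool.Agent.H.MP_9c5c66_al
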