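import Pool.Agent.H.MP_9c5c66_al.A

namespace Pool.Agent.H.MP_9c5c66_al

open Finset

section
variable (I : Type) [DecidableEq I]

def fa (x y : Option (Finset I)) : Option (Finset I) := if x = y then x else none
def fm : Option (Finset I) → Option (Finset I) → Option (Finset I)
  | some S, some T => if Disjoint S T then some (S ∪ T) else none
  | _, _ => none
abbrev F : Alg := ⟨Option (Finset I), fa I, fm I⟩

variable {I}
def R (v : Option (Option (Finset I))) (w : I → Option (Fin 3)) : Prop :=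
  (v = none ∧ ∀ i, w i = none) ∨ (∃ S, v = some (some S) ∧ ∀ i, w i = some (if i ∈ S then 1 else 0)) ∨
    (v = some none ∧ (∀ i, ∃ c, w i = some c) ∧ ∃ i, w i = some 2)

lemma R.add {v v' : Option (Option (Finset I))} {w w' u : I → Option (Fin 3)} (h : R v w) (h' : R v' w')
    (hu : ∀ i, u i = S7.adj.add (w i) (w' i)) : R ((F I).adj.add v v') u := by
  have t : ∀ c c' : Fin 3, c = 2 ∨ c' = 2 → S7.add c c' = (2 : Fin 3) := by
    show ∀ c c' : Fin 3, _ → (if c = c' then c else 2) = 2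
    decide
  have e : ∀ c c' : Fin 3, S7.adj.add (some c) (some c') = some (S7.add c c') := fun _ _ => rfl
  rcases h with ⟨rfl, h⟩ | h
  · obtain rfl : u = w' := funext fun i => by rw [hu, h]; rfl
    exact h'
  rcases h' with ⟨rfl, h'⟩ | h'
  · obtain rfl : u = w := funext fun i => by rw [hu, h']; cases w i <;> rfl
    cases v <;> exact .inr h
  rcases h with ⟨S, rfl, h⟩ | ⟨rfl, h, i, hi⟩ <;> rcases h' with ⟨T, rfl, h'⟩ | ⟨rfl, h', j, hj⟩
  · by_cases hST : S = T
    · subst hST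
      exact .inr (.inl ⟨S, congrArg some (if_pos rfl), fun i => by
        rw [hu, h, h', e]; exact congrArg some (if_pos rfl)⟩)
    · refine .inr (.inr ⟨congrArg some (if_neg (by simpa using hST)), fun i => ⟨_, by rw [hu, h, h', e]⟩, ?_⟩)
      obtain ⟨i, hi⟩ := not_forall.1 (Finset.ext_iff.not.1 hST)
      refine ⟨i, ?_⟩
      rw [hu, h, h', e]
      refine congrArg some (if_neg ?_)
      split_ifs <;> simp_all
  · exact .inr (.inr ⟨rfl, fun i => by obtain ⟨c, hc⟩ := h' i; exact ⟨_, by rw [hu, h, hc, e]⟩,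
      j, by rw [hu, h, hj, e, t _ _ (.inr rfl)]⟩)
  · exact .inr (.inr ⟨rfl, fun i => by obtain ⟨c, hc⟩ := h i; exact ⟨_, by rw [hu, h', hc, e]⟩,
      i, by rw [hu, h', hi, e, t _ _ (.inl rfl)]⟩)
  · refine .inr (.inr ⟨rfl, fun i => ?_, i, ?_⟩) <;> obtain ⟨c', hc'⟩ := h' i
    · obtain ⟨c, hc⟩ := h i; exact ⟨_, by rw [hu, hc', hc, e]⟩
    · rw [hu, hc', hi, e, t _ _ (.inl rfl)]

lemma R.mul {v v' : Option (Option (Finset I))} {w w' u : I → Option (Fin 3)} (h : R v w) (h' : R v' w')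
    (hu : ∀ i, u i = S7.adj.mul (w i) (w' i)) : R ((F I).adj.mul v v') u := by
  have t : ∀ c c' : Fin 3, c = 2 ∨ c' = 2 → S7.mul c c' = (2 : Fin 3) := by
    show ∀ c c' : Fin 3, _ → (if c = 0 then c' else if c' = 0 then c else 2) = 2
    decide
  have e : ∀ c c' : Fin 3, S7.adj.mul (some c) (some c') = some (S7.mul c c') := fun _ _ => rfl
  rcases h with ⟨rfl, h⟩ | h
  · exact .inl ⟨rfl, fun i => by rw [hu, h]; rfl⟩
  rcases h' with ⟨rfl, h'⟩ | h'
  · exact .inl ⟨by cases v <;> rfl, fun i => by rw [hu, h']; cases w i <;> rfl⟩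
  rcases h with ⟨S, rfl, h⟩ | ⟨rfl, h, i, hi⟩ <;> rcases h' with ⟨T, rfl, h'⟩ | ⟨rfl, h', j, hj⟩
  · by_cases hST : Disjoint S T
    · refine .inr (.inl ⟨S ∪ T, congrArg some (if_pos hST), fun i => ?_⟩)
      rw [hu, h, h', e]
      have : i ∈ S → i ∉ T := fun h => disjoint_left.1 hST h
      by_cases a : i ∈ S <;> by_cases b : i ∈ T <;> simp_all
    · refine .inr (.inr ⟨congrArg some (if_neg hST), fun i => ⟨_, by rw [hu, h, h', e]⟩, ?_⟩)
      obtain ⟨i, a, b⟩ := not_disjoint_iff.1 hST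
      exact ⟨i, by rw [hu, h, h', e, if_pos a, if_pos b]; rfl⟩
  · exact .inr (.inr ⟨rfl, fun i => by obtain ⟨c, hc⟩ := h' i; exact ⟨_, by rw [hu, h, hc, e]⟩,
      j, by rw [hu, h, hj, e, t _ _ (.inr rfl)]⟩)
  · exact .inr (.inr ⟨rfl, fun i => by obtain ⟨c, hc⟩ := h i; exact ⟨_, by rw [hu, h', hc, e]⟩,
      i, by rw [hu, h', hi, e, t _ _ (.inl rfl)]⟩)
  · refine .inr (.inr ⟨rfl, fun i => ?_, i, ?_⟩) <;> obtain ⟨c', hc'⟩ := h' i
    · obtain ⟨c, hc⟩ := h i; exact ⟨_, by rw [hu, hc', hc, e]⟩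
    · rw [hu, hc', hi, e, t _ _ (.inl rfl)]

lemma R.uniq [Nonempty I] {v v' : Option (Option (Finset I))} {w : I → Option (Fin 3)} (h : R v w)
    (h' : R v' w) : v = v' := by
  obtain ⟨i0⟩ := ‹Nonempty I›
  rcases h with ⟨rfl, h⟩ | ⟨S, rfl, h⟩ | ⟨rfl, h, i, hi⟩ <;>
    rcases h' with ⟨rfl, h'⟩ | ⟨T, rfl, h'⟩ | ⟨rfl, h', j, hj⟩
  · rfl
  · simpa [h] using h' i0
  · simp [h] at hj
  · simpa [h'] using h i0
  · congr; ext i
    have := (h i).symm.trans (h' i)
    split_ifs at this <;> simp_all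
  · rw [h] at hj; split_ifs at hj <;> simp at hj
  · simp [h'] at hi
  · rw [h'] at hi; split_ifs at hi <;> simp at hi
  · rfl

lemma F_mem [Nonempty I] : (F I).adj ∈ V S7.adj := fun e he σ => by
  obtain ⟨i0⟩ := ‹Nonempty I›
  let c : I → Option (Option (Finset I)) → Option (Fin 3) := fun i =>
    Option.map fun x => x.elim 2 fun S => if i ∈ S then 1 else 0
  have key : ∀ t, R ((F I).adj.ev σ t) fun i => S7.adj.ev (fun n => c i (σ n)) t := fun t => by
    induction t with
    | var n =>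
      show R (σ n) fun i => c i (σ n)
      rcases σ n with _ | _ | S
      · exact .inl ⟨rfl, fun _ => rfl⟩
      · exact .inr (.inr ⟨rfl, fun _ => ⟨_, rfl⟩, i0, rfl⟩)
      · exact .inr (.inl ⟨S, rfl, fun _ => rfl⟩)
    | add a b iha ihb => exact iha.add ihb fun _ => rfl
    | mul a b iha ihb => exact iha.mul ihb fun _ => rfl
  refine (key e.1).uniq ?_
  simp only [he _]
  exact key e.2
end

def Good (q : ℕ) (x : Option (Finset (Fin (3 * q)))) : Prop := ∀ S, x = some S → S.Nonempty ∧ q ∣ S.card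

abbrev G (q : ℕ) : Alg := ⟨{x // Good q x},
  fun x y => ⟨fa _ x.1 y.1, fun S h => by
    unfold fa at h; split_ifs at h; exact x.2 S h⟩,
  fun x y => ⟨fm _ x.1 y.1, fun S h => by
    obtain ⟨_ | A, hx⟩ := x
    · cases h
    obtain ⟨_ | B, hy⟩ := y
    · cases h
    simp only [fm] at h
    split_ifs at h with hd
    obtain rfl := Option.some.inj h
    exact ⟨(hx A rfl).1.mono subset_union_left, by
      rw [card_union_of_disjoint hd]; exact dvd_add (hx A rfl).2 (hy B rfl).2⟩⟩⟩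

def em {q : ℕ} : (G q).adj.C → (F (Fin (3 * q))).adj.C := Option.map Subtype.val
lemma em_ev {q : ℕ} (σ : ℕ → (G q).adj.C) (t : Tm) :
    em ((G q).adj.ev σ t) = (F (Fin (3 * q))).adj.ev (em ∘ σ) t :=
  hom em (by rintro (_ | _) (_ | _) <;> rfl) (by rintro (_ | _) (_ | _) <;> rfl) σ t
lemma em_inj {q : ℕ} : Function.Injective (em (q := q)) := Option.map_injective Subtype.val_injective

lemma G_mem {q : ℕ} (hq : 0 < q) : (G q).adj ∈ V S7.adj := fun e he σ => em_inj <| by
  have : Nonempty (Fin (3 * q)) := ⟨⟨0, by omega⟩⟩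
  rw [em_ev, em_ev]; exact F_mem e he _

abbrev K (k : ℕ) := Finset (Fin (3 * k))
def xv {k : ℕ} (A : K k) : Tm := .var (Encodable.encode A + 1)
def mon {k : ℕ} (p : K k × K k × K k) : Tm := .mul (.mul (xv p.1) (xv p.2.1)) (xv p.2.2)
open Classical in
noncomputable def L (k : ℕ) : List (K k × K k × K k) := (univ.filter fun p => Par k p.1 p.2.1 p.2.2).toList
lemma mem_L {k : ℕ} {p : K k × K k × K k} : p ∈ L k ↔ Par k p.1 p.2.1 p.2.2 := by simp [L]
lemma ex_L {k : ℕ} {A : K k} (h : A.card = k) : ∃ B C, (A, B, C) ∈ L k := by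
  obtain ⟨B, h1, h2⟩ := exists_subset_card_eq (s := Aᶜ) (n := k) (by
    rw [card_compl, Fintype.card_fin]; omega)
  exact ⟨B, _, mem_L.2 (third (by simp) h h2 (subset_compl_iff_disjoint_left.1 h1))⟩
lemma ex_A (k : ℕ) : ∃ A : K k, A.card = k := by
  obtain ⟨B, -, h2⟩ := exists_subset_card_eq (s := (univ : K k)) (n := k) (by simp; omega)
  exact ⟨B, h2⟩

def sm (l : List Tm) (b : Tm) : Tm := l.foldr .add b
def pr (l : List Tm) (b : Tm) : Tm := l.foldr .mul b
noncomputable def T (k : ℕ) : Tm := sm ((L k).map mon) (.mul (.var 0) (.var 0))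
noncomputable def P (k : ℕ) : Tm := pr ((L k).map fun p => xv p.1) (xv (ex_A k).choose)
noncomputable def ε (k : ℕ) : Tm × Tm := (T k, .add (T k) (.mul (P k) (P k)))

lemma S7_ε (k : ℕ) : Sat S7 (ε k) := fun σ => by
  have h1 : ∀ l b, S7.ev σ (sm l b) ≠ (2 : Fin 3) →
      S7.ev σ b = S7.ev σ (sm l b) ∧ ∀ m ∈ l, S7.ev σ m = S7.ev σ (sm l b) := fun l b => by
    induction l with
    | nil => simp [sm]
    | cons a l ih =>
      intro h
      have e : S7.ev σ (sm (a :: l) b) = if S7.ev σ a = S7.ev σ (sm l b) then S7.ev σ a else (2 : Fin 3) := rfl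
      rw [e] at h ⊢
      split_ifs at h ⊢ with h2
      · rw [h2] at h ⊢
        exact ⟨(ih h).1, by simpa [h2] using (ih h).2⟩
      · exact absurd rfl h
  have h2 : ∀ l b, S7.ev σ b = (0 : Fin 3) → (∀ m ∈ l, S7.ev σ m = (0 : Fin 3)) →
      S7.ev σ (pr l b) = (0 : Fin 3) := fun l b hb => by
    induction l with
    | nil => exact fun _ => hb
    | cons a l ih =>
      intro h
      show S7.mul (S7.ev σ a) (S7.ev σ (pr l b)) = _
      rw [h a (by simp), ih fun m hm => h m (by simp [hm])]; rfl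
  show S7.ev σ (T k) = S7.add (S7.ev σ (T k)) (S7.mul (S7.ev σ (P k)) (S7.ev σ (P k)))
  by_cases h : S7.ev σ (T k) = (2 : Fin 3)
  · rw [h]; exact (ite_self _).symm
  obtain ⟨a, b⟩ := h1 _ _ h
  have t1 : ∀ c d : Fin 3, (if c = 0 then c else if c = 0 then c else 2) = d → d ≠ 2 → d = 0 := by decide
  have e : S7.ev σ (T k) = (0 : Fin 3) := t1 (σ 0) _ a h
  have t2 : ∀ c d : Fin 3, (if c = 0 then d else if d = 0 then c else 2) = 0 → c = 0 := by decide
  have h3 : ∀ p ∈ L k, S7.ev σ (xv p.1) = (0 : Fin 3) := fun p hp =>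
    t2 _ _ (t2 _ _ ((b _ (List.mem_map_of_mem hp)).trans e))
  obtain ⟨B, C, hA⟩ := ex_L (ex_A k).choose_spec
  rw [e, show S7.ev σ (P k) = (0 : Fin 3) from h2 _ _ (h3 _ hA) (List.forall_mem_map.2 h3)]
  rfl

section
variable {I : Type} [DecidableEq I] (σ : ℕ → (F I).adj.C)

lemma sm_ne (l : List Tm) (b : Tm) (h : (F I).adj.ev σ (sm l b) ≠ some none) :
    ∀ m ∈ l, (F I).adj.ev σ m = none ∨ (F I).adj.ev σ m = (F I).adj.ev σ (sm l b) := by
  induction l with
  | nil => simp
  | cons a l ih =>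
    have e : (F I).adj.ev σ (sm (a :: l) b) =
      (F I).adj.add ((F I).adj.ev σ a) ((F I).adj.ev σ (sm l b)) := rfl
    rw [e] at h ⊢
    rw [List.forall_mem_cons]
    generalize (F I).adj.ev σ a = u at *
    generalize (F I).adj.ev σ (sm l b) = v at *
    rcases u with _ | u
    · exact ⟨.inl rfl, ih h⟩
    rcases v with _ | v
    · exact ⟨.inr rfl, fun m hm => .inl ((ih nofun m hm).elim id id)⟩
    by_cases huv : u = v
    · subst huv
      have e2 : (F I).adj.add (some u) (some u) = some u := congrArg some (if_pos rfl)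
      rw [e2] at h ⊢
      exact ⟨.inr rfl, ih h⟩
    · exact absurd (congrArg some (if_neg huv)) h

lemma sm_eq (l : List Tm) (b : Tm) (v : Option (Finset I)) (hb : (F I).adj.ev σ b = none)
    (h : ∀ m ∈ l, (F I).adj.ev σ m = some v) (hl : l ≠ []) : (F I).adj.ev σ (sm l b) = some v := by
  induction l with
  | nil => exact absurd rfl hl
  | cons a l ih =>
    show (F I).adj.add ((F I).adj.ev σ a) ((F I).adj.ev σ (sm l b)) = _
    rw [h a (by simp)]
    by_cases h0 : l = []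
    · subst h0; rw [show sm [] b = b from rfl, hb]; rfl
    · rw [ih (fun m hm => h m (by simp [hm])) h0]; exact congrArg some (if_pos rfl)

lemma pr_none (l : List Tm) (b : Tm) :
    (F I).adj.ev σ (pr l b) = none ↔ (F I).adj.ev σ b = none ∨ ∃ m ∈ l, (F I).adj.ev σ m = none := by
  induction l with
  | nil => simp [pr]
  | cons a l ih =>
    have : ∀ u v, (F I).adj.mul u v = none ↔ u = none ∨ v = none := by
      rintro (_ | _) (_ | _) <;> simp [Alg.adj]
    refine (this _ _).trans ?_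
    rw [show List.foldr Tm.mul b l = pr l b from rfl, ih]
    simp; tauto
end

lemma sq_top {q : ℕ} (σ : ℕ → (G q).adj.C) (t : Tm) (h : (F _).adj.ev (em ∘ σ) t ≠ none) :
    (F _).adj.mul ((F _).adj.ev (em ∘ σ) t) ((F _).adj.ev (em ∘ σ) t) = some none := by
  rw [← em_ev] at h ⊢
  rcases hh : (G q).adj.ev σ t with _ | ⟨_ | S, hS⟩
  · exact absurd (by rw [hh]; rfl) h
  · rfl
  · exact congrArg some (if_neg (by simpa using (hS S rfl).1.ne_empty))

lemma G_ε {p q : ℕ} (hp : 0 < p) (h : ¬ p ∣ q) : Sat (G q).adj (ε p) := fun σ => em_inj <| by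
  rw [em_ev, em_ev]
  show (F _).adj.ev _ (T p) = (F _).adj.add ((F _).adj.ev _ (T p))
    ((F _).adj.mul ((F _).adj.ev _ (P p)) ((F _).adj.ev _ (P p)))
  by_cases h1 : (F _).adj.ev (em ∘ σ) (P p) = none
  · rw [h1]; cases (F _).adj.ev (em ∘ σ) (T p) <;> rfl
  rw [sq_top σ _ h1]
  by_cases h2 : (F _).adj.ev (em ∘ σ) (T p) = some none
  · rw [h2]; rfl
  refine absurd (kneser (I := Fin (3 * p)) (by simp) hp
    (fun A => ((σ (Encodable.encode A + 1)).bind Subtype.val).getD ∅) fun A B C hP => ?_) h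
  have h3 : ∀ A : K p, A.card = p → em (σ (Encodable.encode A + 1)) ≠ none := fun A hA h0 => by
    obtain ⟨B, C, hL⟩ := ex_L hA
    exact h1 ((pr_none _ _ _).2 (.inr ⟨xv A, List.mem_map.2 ⟨_, hL, rfl⟩, h0⟩))
  have h4 := sm_ne _ _ _ h2 (mon (A, B, C)) (List.mem_map_of_mem (mem_L.2 hP))
  have h5 : (F _).adj.mul ((F _).adj.mul (em (σ (Encodable.encode A + 1))) (em (σ (Encodable.encode B + 1))))
      (em (σ (Encodable.encode C + 1))) ≠ some none := fun h0 => by
    rcases h4 with h4 | h4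
    · cases h0.symm.trans h4
    · exact h2 (h4.symm.trans h0)
  have a := h3 A hP.1
  have b := h3 B hP.2.1
  have c := h3 C hP.2.2.1
  generalize σ (Encodable.encode A + 1) = u at *
  generalize σ (Encodable.encode B + 1) = v at *
  generalize σ (Encodable.encode C + 1) = w at *
  rcases u with _ | ⟨u, hu⟩
  · exact absurd rfl a
  rcases v with _ | ⟨v, hv⟩
  · exact absurd rfl b
  rcases w with _ | ⟨w, hw⟩
  · exact absurd rfl c
  replace h5 : fm _ (fm _ u v) w ≠ none := fun h0 => h5 (congrArg some h0)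
  rcases u with _ | u
  · exact absurd rfl h5
  rcases v with _ | v
  · exact absurd rfl h5
  by_cases d1 : Disjoint u v
  swap
  · simp [fm, d1] at h5
  rcases w with _ | w
  · simp [fm, d1] at h5
  have d2 : Disjoint (u ∪ v) w := by simpa only [fm, d1, if_true, ne_eq, ite_eq_right_iff, reduceCtorEq,
    imp_false, not_not] using h5
  have l1 := Nat.le_of_dvd (hu u rfl).1.card_pos (hu u rfl).2
  have l2 := Nat.le_of_dvd (hv v rfl).1.card_pos (hv v rfl).2
  have l3 := Nat.le_of_dvd (hw w rfl).1.card_pos (hw w rfl).2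
  have l4 := card_le_univ (u ∪ v ∪ w)
  rw [card_union_of_disjoint d2, card_union_of_disjoint d1, Fintype.card_fin] at l4
  exact ⟨show u.card = q by omega, show v.card = q by omega, show w.card = q by omega, d1, d2⟩

lemma G_not {p : ℕ} (hp : 0 < p) : ¬ Sat (G p).adj (ε p) := fun h => by
  classical
  let σ : ℕ → (G p).adj.C := fun n => Nat.casesOn n none fun n =>
    some (if h : ∃ A : K p, A.card = p ∧ Encodable.encode A = n then ⟨some h.choose, fun S hS => by
      obtain rfl := Option.some.inj hS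
      exact ⟨card_pos.1 (by rw [h.choose_spec.1]; exact hp), by rw [h.choose_spec.1]⟩⟩
      else ⟨none, nofun⟩)
  have h1 : ∀ A : K p, A.card = p → (F _).adj.ev (em ∘ σ) (xv A) = some (some A) := fun A hA => by
    have h0 : ∃ B : K p, B.card = p ∧ Encodable.encode B = Encodable.encode A := ⟨A, hA, rfl⟩
    show em (σ (Encodable.encode A + 1)) = _
    simp only [σ, dif_pos h0, em, Option.map_some, Encodable.encode_injective h0.choose_spec.2]
  have h2 := congrArg em (h σ)
  rw [em_ev, em_ev] at h2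
  obtain ⟨B, C, hA⟩ := ex_L (ex_A p).choose_spec
  have h3 : (F _).adj.ev (em ∘ σ) (T p) = some (some univ) := by
    refine sm_eq _ _ _ _ rfl (fun m hm => ?_) (by simpa using List.ne_nil_of_mem hA)
    obtain ⟨⟨A, B, C⟩, hm', rfl⟩ := List.mem_map.1 hm
    obtain ⟨a, b, c, d, e⟩ := mem_L.1 hm'
    show (F _).adj.mul ((F _).adj.mul ((F _).adj.ev _ (xv A)) ((F _).adj.ev _ (xv B)))
      ((F _).adj.ev _ (xv C)) = _
    rw [h1 A a, h1 B b, h1 C c]
    show some (fm _ (fm _ (some A) (some B)) (some C)) = _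
    simp only at a b c d e
    simp only [fm, d, e, if_true]
    rw [eq_univ_of_card (A ∪ B ∪ C) (by
      rw [card_union_of_disjoint e, card_union_of_disjoint d, Fintype.card_fin]; omega)]
  have h4 : (F _).adj.ev (em ∘ σ) (P p) ≠ none := fun h0 => by
    rcases (pr_none _ _ _).1 h0 with h0 | ⟨m, hm, h0⟩
    · cases (h1 _ (ex_A p).choose_spec).symm.trans h0
    · obtain ⟨r, hr, rfl⟩ := List.mem_map.1 hm
      cases (h1 _ (mem_L.1 hr).1).symm.trans h0
  change (F _).adj.ev _ (T p) = (F _).adj.add ((F _).adj.ev _ (T p))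
    ((F _).adj.mul ((F _).adj.ev _ (P p)) ((F _).adj.ev _ (P p))) at h2
  rw [sq_top σ _ h4, h3] at h2
  cases h2

end Pool.Agent.H.MP_9c5c66_al
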